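import Pool.Agent.VM.StmtsH

set_option autoImplicit false

/-! Multiplicativity of complete sums. -/

namespace Pool.Agent.VM.H20

open Finset Pool.Agent.Helper69_Weyl

theorem ee_cong (u : ℕ) (hu : 0 < u) (A B : ℤ) (h : (u : ℤ) ∣ A - B) :
    ee ((A : ℝ) / (u : ℝ)) = ee ((B : ℝ) / (u : ℝ)) := by
  obtain ⟨c, hc⟩ := h
  have hu0 : (u : ℝ) ≠ 0 := by
    have : (0 : ℝ) < u := by exact_mod_cast hu
    exact this.ne'
  have h1 : (A : ℝ) / (u : ℝ) = (B : ℝ) / (u : ℝ) + (c : ℝ) := by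
    have h2 : (A : ℝ) = B + u * c := by
      have : A = B + u * c := by linarith
      exact_mod_cast this
    rw [h2]
    field_simp
  rw [h1, ee_add, ee_int, mul_one]

theorem pow_cong (x y : ℤ) (u₁ u₂ : ℤ) (k : ℕ) (hk : 1 ≤ k) :
    u₁ * u₂ ∣ (u₂ * x + u₁ * y) ^ k - ((u₂ * x) ^ k + (u₁ * y) ^ k) := by
  obtain ⟨j, rfl⟩ : ∃ j, k = j + 1 := ⟨k - 1, by omega⟩
  clear hk
  induction j with
  | zero => simp
  | succ j ih =>
    obtain ⟨c, hc⟩ := ih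
    refine ⟨c * (u₂ * x + u₁ * y) + (x * y) * ((u₂ * x) ^ j + (u₁ * y) ^ j), ?_⟩
    have h1 : (u₂ * x + u₁ * y) ^ (j + 1) = (u₂ * x) ^ (j + 1) + (u₁ * y) ^ (j + 1) + u₁ * u₂ * c := by
      linarith
    rw [pow_succ (u₂ * x + u₁ * y) (j + 1), h1, pow_succ (u₂ * x) (j + 1), pow_succ (u₁ * y) (j + 1),
      pow_succ (u₂ * x) j, pow_succ (u₁ * y) j]
    ring

theorem hmt : HmtStmt := by
  intro k u₁ u₂ b m hk h₁ h₂ hcop
  unfold Sc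
  rw [Finset.sum_mul_sum, ← Finset.sum_product']
  symm
  have hpos : 0 < u₁ * u₂ := Nat.mul_pos h₁ h₂
  have hu1 : (0 : ℝ) < u₁ := by exact_mod_cast h₁
  have hu2 : (0 : ℝ) < u₂ := by exact_mod_cast h₂
  apply Finset.sum_nbij (fun p : ℕ × ℕ => (u₂ * p.1 + u₁ * p.2) % (u₁ * u₂))
  · intro p _
    rw [Finset.mem_range]
    exact Nat.mod_lt _ hpos
  · intro p hp q hq hpq
    rw [Finset.mem_coe, Finset.mem_product, Finset.mem_range, Finset.mem_range] at hp hq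
    have h : (u₂ * p.1 + u₁ * p.2) ≡ (u₂ * q.1 + u₁ * q.2) [MOD (u₁ * u₂)] := hpq
    have ha : (u₂ * p.1) ≡ (u₂ * q.1) [MOD u₁] := by
      have h3 := h.of_mul_right u₂
      have e1 : (u₂ * p.1 + u₁ * p.2) ≡ (u₂ * p.1) [MOD u₁] := by
        have : (u₂ * p.1 + u₁ * p.2) % u₁ = (u₂ * p.1) % u₁ := Nat.add_mul_mod_self_left _ _ _
        exact this
      have e2 : (u₂ * q.1 + u₁ * q.2) ≡ (u₂ * q.1) [MOD u₁] := by
        have : (u₂ * q.1 + u₁ * q.2) % u₁ = (u₂ * q.1) % u₁ := Nat.add_mul_mod_self_left _ _ _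
        exact this
      exact (e1.symm.trans h3).trans e2
    have hb : (u₁ * p.2) ≡ (u₁ * q.2) [MOD u₂] := by
      have h3 := h.of_mul_left u₁
      have e1 : (u₂ * p.1 + u₁ * p.2) ≡ (u₁ * p.2) [MOD u₂] := by
        have : (u₂ * p.1 + u₁ * p.2) % u₂ = (u₁ * p.2) % u₂ := Nat.mul_add_mod _ _ _
        exact this
      have e2 : (u₂ * q.1 + u₁ * q.2) ≡ (u₁ * q.2) [MOD u₂] := by
        have : (u₂ * q.1 + u₁ * q.2) % u₂ = (u₁ * q.2) % u₂ := Nat.mul_add_mod _ _ _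
        exact this
      exact (e1.symm.trans h3).trans e2
    have ha' : p.1 ≡ q.1 [MOD u₁] := Nat.ModEq.cancel_left_of_coprime hcop ha
    have hb' : p.2 ≡ q.2 [MOD u₂] := Nat.ModEq.cancel_left_of_coprime hcop.symm hb
    exact Prod.ext (Nat.ModEq.eq_of_lt_of_lt ha' hp.1 hq.1) (Nat.ModEq.eq_of_lt_of_lt hb' hp.2 hq.2)
  · have hinj : Set.InjOn (fun p : ℕ × ℕ => (u₂ * p.1 + u₁ * p.2) % (u₁ * u₂))
        (range u₁ ×ˢ range u₂ : Finset (ℕ × ℕ)) := by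
      intro p hp q hq hpq
      rw [Finset.mem_coe, Finset.mem_product, Finset.mem_range, Finset.mem_range] at hp hq
      have h : (u₂ * p.1 + u₁ * p.2) ≡ (u₂ * q.1 + u₁ * q.2) [MOD (u₁ * u₂)] := hpq
      have ha : (u₂ * p.1) ≡ (u₂ * q.1) [MOD u₁] := by
        have h3 := h.of_mul_right u₂
        have e1 : (u₂ * p.1 + u₁ * p.2) ≡ (u₂ * p.1) [MOD u₁] := by
          have : (u₂ * p.1 + u₁ * p.2) % u₁ = (u₂ * p.1) % u₁ := Nat.add_mul_mod_self_left _ _ _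
          exact this
        have e2 : (u₂ * q.1 + u₁ * q.2) ≡ (u₂ * q.1) [MOD u₁] := by
          have : (u₂ * q.1 + u₁ * q.2) % u₁ = (u₂ * q.1) % u₁ := Nat.add_mul_mod_self_left _ _ _
          exact this
        exact (e1.symm.trans h3).trans e2
      have hb : (u₁ * p.2) ≡ (u₁ * q.2) [MOD u₂] := by
        have h3 := h.of_mul_left u₁
        have e1 : (u₂ * p.1 + u₁ * p.2) ≡ (u₁ * p.2) [MOD u₂] := by
          have : (u₂ * p.1 + u₁ * p.2) % u₂ = (u₁ * p.2) % u₂ := Nat.mul_add_mod _ _ _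
          exact this
        have e2 : (u₂ * q.1 + u₁ * q.2) ≡ (u₁ * q.2) [MOD u₂] := by
          have : (u₂ * q.1 + u₁ * q.2) % u₂ = (u₁ * q.2) % u₂ := Nat.mul_add_mod _ _ _
          exact this
        exact (e1.symm.trans h3).trans e2
      have ha' : p.1 ≡ q.1 [MOD u₁] := Nat.ModEq.cancel_left_of_coprime hcop ha
      have hb' : p.2 ≡ q.2 [MOD u₂] := Nat.ModEq.cancel_left_of_coprime hcop.symm hb
      exact Prod.ext (Nat.ModEq.eq_of_lt_of_lt ha' hp.1 hq.1) (Nat.ModEq.eq_of_lt_of_lt hb' hp.2 hq.2)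
    apply Finset.surjOn_of_injOn_of_card_le _ _ hinj
    · rw [Finset.card_product, Finset.card_range, Finset.card_range, Finset.card_range]
    · intro p _
      rw [Finset.mem_coe, Finset.mem_range]
      exact Nat.mod_lt _ hpos
  · intro p _
    obtain ⟨x, y⟩ := p
    simp only
    obtain ⟨j, rfl⟩ : ∃ j, k = j + 1 := ⟨k - 1, by omega⟩
    have hj : j + 1 - 1 = j := by omega
    rw [hj]
    rw [← ee_add]
    have e1 : (((b * (u₂ : ℤ) ^ j * (x : ℤ) ^ (j + 1) + m * (x : ℤ) : ℤ) : ℝ) / (u₁ : ℝ) +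
        ((b * (u₁ : ℤ) ^ j * (y : ℤ) ^ (j + 1) + m * (y : ℤ) : ℤ) : ℝ) / (u₂ : ℝ)) =
        ((b * (((u₂ : ℤ) * x) ^ (j + 1) + ((u₁ : ℤ) * y) ^ (j + 1)) +
          m * ((u₂ : ℤ) * x + (u₁ : ℤ) * y) : ℤ) : ℝ) / ((u₁ * u₂ : ℕ) : ℝ) := by
      push_cast
      field_simp
      ring
    rw [e1]
    apply ee_cong _ hpos
    obtain ⟨w, hw⟩ : ∃ w : ℕ, w = (u₂ * x + u₁ * y) % (u₁ * u₂) := ⟨_, rfl⟩
    rw [← hw]
    have h1 : ((u₁ * u₂ : ℕ) : ℤ) ∣ ((u₂ : ℤ) * x + (u₁ : ℤ) * y) - (w : ℤ) := by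
      refine ⟨(((u₂ * x + u₁ * y) / (u₁ * u₂) : ℕ) : ℤ), ?_⟩
      have := Nat.div_add_mod (u₂ * x + u₁ * y) (u₁ * u₂)
      rw [← hw] at this
      have h2 : (((u₁ * u₂ : ℕ) : ℤ)) * (((u₂ * x + u₁ * y) / (u₁ * u₂) : ℕ) : ℤ) + (w : ℤ) =
          (u₂ : ℤ) * x + (u₁ : ℤ) * y := by exact_mod_cast this
      linarith
    have h2 : ((u₁ * u₂ : ℕ) : ℤ) ∣ ((u₂ : ℤ) * x + (u₁ : ℤ) * y) ^ (j + 1) - (w : ℤ) ^ (j + 1) :=
      h1.trans (sub_dvd_pow_sub_pow _ _ _)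
    have h3 : ((u₁ * u₂ : ℕ) : ℤ) ∣ ((u₂ : ℤ) * x + (u₁ : ℤ) * y) ^ (j + 1) -
        (((u₂ : ℤ) * x) ^ (j + 1) + ((u₁ : ℤ) * y) ^ (j + 1)) := by
      have := pow_cong (x : ℤ) (y : ℤ) (u₁ : ℤ) (u₂ : ℤ) (j + 1) hk
      push_cast
      exact this
    have h4 := (((h2.mul_left b).sub (h3.mul_left b)).add (h1.mul_left m))
    have e2 : b * (((u₂ : ℤ) * x) ^ (j + 1) + ((u₁ : ℤ) * y) ^ (j + 1)) +
          m * ((u₂ : ℤ) * x + (u₁ : ℤ) * y) - (b * (w : ℤ) ^ (j + 1) + m * (w : ℤ)) =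
        b * (((u₂ : ℤ) * x + (u₁ : ℤ) * y) ^ (j + 1) - (w : ℤ) ^ (j + 1)) -
        b * (((u₂ : ℤ) * x + (u₁ : ℤ) * y) ^ (j + 1) -
        (((u₂ : ℤ) * x) ^ (j + 1) + ((u₁ : ℤ) * y) ^ (j + 1))) +
        m * ((u₂ : ℤ) * x + (u₁ : ℤ) * y - (w : ℤ)) := by ring
    rw [e2]
    exact h4

end Pool.Agent.VM.H20
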