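import Pool.Agent.VM.StmtsH

set_option autoImplicit false

/-! Mordell's bound for complete sums modulo a prime. -/

namespace Pool.Agent.VM.H20

open Finset Pool.Agent.Helper69_Weyl

/-- the standard character of `ZMod p` -/
noncomputable def psi (p : ℕ) [NeZero p] : AddChar (ZMod p) ℂ := ZMod.stdAddChar

theorem psi_int (p : ℕ) [NeZero p] (A : ℤ) : psi p (A : ZMod p) = ee ((A : ℝ) / (p : ℝ)) := by
  unfold psi ee
  rw [ZMod.stdAddChar_coe]
  congr 1
  push_cast
  ring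

theorem psi_sum (p : ℕ) [NeZero p] {ι : Type} (s : Finset ι) (f : ι → ZMod p) :
    psi p (∑ i ∈ s, f i) = ∏ i ∈ s, psi p (f i) := by
  classical
  induction s using Finset.induction_on with
  | empty => simp
  | insert a s ha ih => rw [Finset.sum_insert ha, Finset.prod_insert ha, AddChar.map_add_eq_mul, ih]

/-- the sum with the coefficients `a` -/
noncomputable def TT (p : ℕ) [NeZero p] (k : ℕ) (a : Fin k → ZMod p) : ℂ :=
  ∑ x : ZMod p, psi p (∑ j : Fin k, a j * x ^ ((j : ℕ) + 1))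

theorem TT_pow (p : ℕ) [NeZero p] (k n : ℕ) (a : Fin k → ZMod p) :
    (TT p k a) ^ n = ∑ x : Fin n → ZMod p, psi p (∑ j : Fin k, a j * ∑ i, x i ^ ((j : ℕ) + 1)) := by
  unfold TT
  rw [Fintype.sum_pow]
  apply Finset.sum_congr rfl
  intro x _
  rw [← psi_sum, Finset.sum_comm]
  congr 1
  apply Finset.sum_congr rfl
  intro j _
  rw [Finset.mul_sum]

theorem orth (p : ℕ) [NeZero p] (k : ℕ) (w : Fin k → ZMod p) :
    ∑ a : Fin k → ZMod p, psi p (∑ j : Fin k, a j * w j) =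
      if ∀ j : Fin k, w j = 0 then (p : ℂ) ^ k else 0 := by
  have h1 : ∀ a : Fin k → ZMod p, psi p (∑ j : Fin k, a j * w j) = ∏ j : Fin k, psi p (a j * w j) :=
    fun a => psi_sum p _ _
  rw [Finset.sum_congr rfl (fun a _ => h1 a)]
  rw [← Fintype.prod_sum (fun (j : Fin k) (c : ZMod p) => psi p (c * w j))]
  have h2 : ∀ j : Fin k, ∑ c : ZMod p, psi p (c * w j) = if w j = 0 then (p : ℂ) else 0 := by
    intro j
    have := AddChar.sum_mulShift (w j) (ZMod.isPrimitive_stdAddChar p)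
    unfold psi
    rw [this]
    by_cases h : w j = 0
    · rw [if_pos h, if_pos h, ZMod.card]
    · rw [if_neg h, if_neg h, Nat.cast_zero]
  rw [Finset.prod_congr rfl (fun j _ => h2 j), Finset.prod_ite_zero]
  simp

theorem moment (p : ℕ) [NeZero p] (k : ℕ) :
    ∑ a : Fin k → ZMod p, ‖TT p k a‖ ^ (2 * k) = (p : ℝ) ^ k *
      (Nat.card {v : (Fin k → ZMod p) × (Fin k → ZMod p) //
      ∀ j : Fin k, ∑ i, v.1 i ^ ((j : ℕ) + 1) = ∑ i, v.2 i ^ ((j : ℕ) + 1)} : ℝ) := by
  classical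
  have h1 : ∀ a : Fin k → ZMod p, ((‖TT p k a‖ ^ (2 * k) : ℝ) : ℂ) =
      ∑ v : (Fin k → ZMod p) × (Fin k → ZMod p), psi p (∑ j : Fin k, a j *
        ((∑ i, v.1 i ^ ((j : ℕ) + 1)) - ∑ i, v.2 i ^ ((j : ℕ) + 1))) := by
    intro a
    have e1 : ((‖TT p k a‖ ^ (2 * k) : ℝ) : ℂ) =
        (TT p k a) ^ k * (starRingEnd ℂ) ((TT p k a) ^ k) := by
      rw [map_pow, ← mul_pow, Complex.mul_conj, Complex.normSq_eq_norm_sq, pow_mul]
      push_cast
      ring
    rw [e1, TT_pow, map_sum, Finset.sum_mul_sum, ← Finset.univ_product_univ, Finset.sum_product]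
    apply Finset.sum_congr rfl
    intro x _
    apply Finset.sum_congr rfl
    intro y _
    rw [← AddChar.map_neg_eq_conj, ← AddChar.map_add_eq_mul]
    congr 1
    rw [← sub_eq_add_neg, ← Finset.sum_sub_distrib]
    apply Finset.sum_congr rfl
    intro j _
    ring
  have h2 : ((∑ a : Fin k → ZMod p, ‖TT p k a‖ ^ (2 * k) : ℝ) : ℂ) = (p : ℂ) ^ k *
      (Nat.card {v : (Fin k → ZMod p) × (Fin k → ZMod p) //
      ∀ j : Fin k, ∑ i, v.1 i ^ ((j : ℕ) + 1) = ∑ i, v.2 i ^ ((j : ℕ) + 1)} : ℂ) := by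
    rw [Complex.ofReal_sum, Finset.sum_congr rfl (fun a _ => h1 a), Finset.sum_comm]
    rw [Finset.sum_congr rfl (fun (v : (Fin k → ZMod p) × (Fin k → ZMod p)) _ =>
      orth p k (fun j : Fin k => (∑ i, v.1 i ^ ((j : ℕ) + 1)) - ∑ i, v.2 i ^ ((j : ℕ) + 1)))]
    rw [← Finset.sum_filter, Finset.sum_const, nsmul_eq_mul, mul_comm]
    congr 2
    rw [Nat.card_eq_fintype_card, Fintype.card_subtype]
    congr 1
    ext v
    simp only [Finset.mem_filter, Finset.mem_univ, true_and, sub_eq_zero]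
  exact_mod_cast h2

/-- the coefficients of `f (l x + u) - f u` -/
def AA (p k : ℕ) (b m l u : ZMod p) : Fin k → ZMod p :=
  fun j => b * (k.choose ((j : ℕ) + 1) : ZMod p) * l ^ ((j : ℕ) + 1) * u ^ (k - ((j : ℕ) + 1)) +
    (if (j : ℕ) = 0 then m * l else 0)

theorem AA_eval (p k : ℕ) (hk : 1 ≤ k) (b m l u x : ZMod p) :
    ∑ j : Fin k, AA p k b m l u j * x ^ ((j : ℕ) + 1) =
      (b * (l * x + u) ^ k + m * (l * x + u)) - (b * u ^ k + m * u) := by
  unfold AA
  rw [← Finset.sum_range (fun j => (b * (k.choose (j + 1) : ZMod p) * l ^ (j + 1) *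
    u ^ (k - (j + 1)) + (if j = 0 then m * l else 0)) * x ^ (j + 1))]
  have h1 : ∀ j ∈ range k, (b * (k.choose (j + 1) : ZMod p) * l ^ (j + 1) *
      u ^ (k - (j + 1)) + (if j = 0 then m * l else 0)) * x ^ (j + 1) =
      b * ((l * x) ^ (j + 1) * u ^ (k - (j + 1)) * (k.choose (j + 1) : ZMod p)) +
      (if j = 0 then m * l * x else 0) := by
    intro j _
    rw [add_mul]
    congr 1
    · ring
    · by_cases h : j = 0
      · rw [if_pos h, if_pos h, h]
        ring
      · rw [if_neg h, if_neg h, zero_mul]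
  rw [Finset.sum_congr rfl h1, Finset.sum_add_distrib, ← Finset.mul_sum]
  have h2 : ∑ j ∈ range k, (if j = 0 then m * l * x else 0) = m * l * x := by
    rw [Finset.sum_ite_eq' (range k) 0 (fun _ => m * l * x), if_pos (Finset.mem_range.2 hk)]
  have h3 : (l * x + u) ^ k = ∑ j ∈ range k, (l * x) ^ (j + 1) * u ^ (k - (j + 1)) *
      (k.choose (j + 1) : ZMod p) + u ^ k := by
    rw [add_pow, Finset.sum_range_succ']
    simp
  rw [h2, h3]
  ring

theorem Sc_eq (p k : ℕ) [NeZero p] (b m : ℤ) :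
    Sc k p b m = ∑ x : ZMod p, psi p ((b : ZMod p) * x ^ k + (m : ZMod p) * x) := by
  unfold Sc
  apply Finset.sum_bij' (fun (x : ℕ) _ => (x : ZMod p)) (fun (y : ZMod p) _ => y.val)
  · intro x _
    exact Finset.mem_univ _
  · intro y _
    rw [Finset.mem_range]
    exact ZMod.val_lt y
  · intro x hx
    exact ZMod.val_cast_of_lt (Finset.mem_range.1 hx)
  · intro y _
    exact ZMod.natCast_zmod_val y
  · intro x _
    rw [← psi_int]
    congr 1
    push_cast
    ring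

theorem norm_TT_AA (p k : ℕ) [Fact p.Prime] (hk : 1 ≤ k) (b m : ℤ) (l u : ZMod p) (hl : l ≠ 0) :
    ‖TT p k (AA p k (b : ZMod p) (m : ZMod p) l u)‖ = ‖Sc k p b m‖ := by
  have h1 : TT p k (AA p k (b : ZMod p) (m : ZMod p) l u) =
      Sc k p b m * psi p (-((b : ZMod p) * u ^ k + (m : ZMod p) * u)) := by
    unfold TT
    rw [Finset.sum_congr rfl (fun x _ => by rw [AA_eval p k hk])]
    rw [Sc_eq, Finset.sum_mul]
    apply Fintype.sum_bijective (fun x : ZMod p => l * x + u)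
    · rw [← Finite.injective_iff_bijective]
      intro x y hxy
      have : l * x = l * y := add_right_cancel hxy
      exact mul_left_cancel₀ hl this
    · intro x
      rw [← AddChar.map_add_eq_mul, sub_eq_add_neg]
  rw [h1, norm_mul, AddChar.norm_apply, mul_one]

theorem fibre (p k : ℕ) [Fact p.Prime] (hk : 3 ≤ k) (hkp : k < p) (b m : ZMod p) (hb : b ≠ 0)
    (a : Fin k → ZMod p) :
    (((univ.filter (fun l : ZMod p => l ≠ 0)) ×ˢ (univ : Finset (ZMod p))).filter
      (fun q => AA p k b m q.1 q.2 = a)).card ≤ k := by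
  classical
  have hk0 : (k : ZMod p) ≠ 0 := by
    intro h
    rw [ZMod.natCast_eq_zero_iff] at h
    have := Nat.le_of_dvd (by omega) h
    omega
  have key : ∀ l u : ZMod p, AA p k b m l u = a →
      l ^ k = b⁻¹ * a ⟨k - 1, by omega⟩ ∧
      b * (k : ZMod p) * l ^ (k - 1) * u = a ⟨k - 2, by omega⟩ := by
    intro l u h
    constructor
    · rw [← h]
      unfold AA
      have e1 : k - 1 + 1 = k := by omega
      have e2 : ¬ (k - 1 = 0) := by omega
      simp only [e1, e2, if_false, Nat.choose_self, Nat.sub_self, pow_zero, Nat.cast_one, mul_one,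
        add_zero]
      rw [inv_mul_cancel_left₀ hb]
    · rw [← h]
      unfold AA
      have e1 : k - 2 + 1 = k - 1 := by omega
      have e2 : ¬ (k - 2 = 0) := by omega
      have e3 : k - (k - 1) = 1 := by omega
      have e4 : k.choose (k - 1) = k := by
        have := Nat.choose_symm (n := k) (k := 1) (by omega)
        rw [this, Nat.choose_one_right]
      simp only [e1, e2, if_false, e3, e4, pow_one, add_zero]
  have h1 : (((univ.filter (fun l : ZMod p => l ≠ 0)) ×ˢ (univ : Finset (ZMod p))).filter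
      (fun q => AA p k b m q.1 q.2 = a)).card ≤
      (Polynomial.nthRoots k (b⁻¹ * a ⟨k - 1, by omega⟩)).toFinset.card := by
    apply Finset.card_le_card_of_injOn (fun q => q.1)
    · intro q hq
      rw [Finset.mem_coe, Finset.mem_filter] at hq
      rw [Finset.mem_coe, Multiset.mem_toFinset, Polynomial.mem_nthRoots (by omega)]
      exact (key q.1 q.2 hq.2).1
    · intro q hq q' hq' hqq
      rw [Finset.mem_coe, Finset.mem_filter, Finset.mem_product, Finset.mem_filter] at hq hq'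
      have hqq' : q.1 = q'.1 := hqq
      have a1 := (key q.1 q.2 hq.2).2
      have a2 := (key q'.1 q'.2 hq'.2).2
      rw [← hqq', ← a1] at a2
      have hne : b * (k : ZMod p) * q.1 ^ (k - 1) ≠ 0 :=
        mul_ne_zero (mul_ne_zero hb hk0) (pow_ne_zero _ hq.1.1.2)
      exact Prod.ext hqq' (mul_left_cancel₀ hne a2).symm
  exact h1.trans ((Multiset.toFinset_card_le _).trans (Polynomial.card_nthRoots _ _))

theorem mor (k : ℕ) (hk : 3 ≤ k) (nwt : NwtStmt) : MorStmt k := by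
  classical
  intro p b m hp hkp hb
  have : Fact p.Prime := ⟨hp⟩
  have hb' : (b : ZMod p) ≠ 0 := by
    rw [Ne, ZMod.intCast_zmod_eq_zero_iff_dvd]
    exact hb
  have hp2 := hp.two_le
  have hp0 : (0 : ℝ) < p := by
    have : 0 < p := by omega
    exact_mod_cast this
  obtain ⟨I, hI⟩ : ∃ I : Finset (ZMod p × ZMod p),
    I = (univ.filter (fun l : ZMod p => l ≠ 0)) ×ˢ (univ : Finset (ZMod p)) := ⟨_, rfl⟩
  have hcard : (I.card : ℝ) = (p - 1) * p := by
    rw [hI, Finset.card_product, Finset.filter_ne', Finset.card_erase_of_mem (Finset.mem_univ _),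
      Finset.card_univ, ZMod.card]
    have : 1 ≤ p := by omega
    push_cast [Nat.cast_sub this]
    ring
  have h1 : ∑ q ∈ I, ‖TT p k (AA p k (b : ZMod p) (m : ZMod p) q.1 q.2)‖ ^ (2 * k) =
      ((p : ℝ) - 1) * p * ‖Sc k p b m‖ ^ (2 * k) := by
    rw [← hcard, ← nsmul_eq_mul, ← Finset.sum_const]
    apply Finset.sum_congr rfl
    intro q hq
    rw [hI, Finset.mem_product, Finset.mem_filter] at hq
    rw [norm_TT_AA p k (by omega) b m q.1 q.2 hq.1.2]
  have h2 : ∑ q ∈ I, ‖TT p k (AA p k (b : ZMod p) (m : ZMod p) q.1 q.2)‖ ^ (2 * k) ≤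
      ∑ a : Fin k → ZMod p, (k : ℝ) * ‖TT p k a‖ ^ (2 * k) := by
    rw [← Finset.sum_fiberwise I (fun q => AA p k (b : ZMod p) (m : ZMod p) q.1 q.2)
      (fun q => ‖TT p k (AA p k (b : ZMod p) (m : ZMod p) q.1 q.2)‖ ^ (2 * k))]
    apply Finset.sum_le_sum
    intro a _
    have e1 : ∀ q ∈ I.filter (fun q => AA p k (b : ZMod p) (m : ZMod p) q.1 q.2 = a),
        ‖TT p k (AA p k (b : ZMod p) (m : ZMod p) q.1 q.2)‖ ^ (2 * k) = ‖TT p k a‖ ^ (2 * k) := by
      intro q hq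
      rw [(Finset.mem_filter.1 hq).2]
    rw [Finset.sum_congr rfl e1, Finset.sum_const, nsmul_eq_mul]
    apply mul_le_mul_of_nonneg_right _ (by positivity)
    have := fibre p k hk hkp (b : ZMod p) (m : ZMod p) hb' a
    rw [← hI] at this
    exact_mod_cast this
  have h3 := nwt p k hp hkp
  have h4 : ∑ a : Fin k → ZMod p, (k : ℝ) * ‖TT p k a‖ ^ (2 * k) ≤
      k * ((p : ℝ) ^ k * (k.factorial * (p : ℝ) ^ k)) := by
    rw [← Finset.mul_sum, moment]
    apply mul_le_mul_of_nonneg_left _ (Nat.cast_nonneg k)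
    apply mul_le_mul_of_nonneg_left _ (by positivity)
    exact_mod_cast h3
  have h5 : ((p : ℝ) - 1) * p * ‖Sc k p b m‖ ^ (2 * k) ≤
      k * ((p : ℝ) ^ k * (k.factorial * (p : ℝ) ^ k)) := by
    rw [← h1]
    exact h2.trans h4
  have hk1 : (1 : ℝ) ≤ k := by
    have : 1 ≤ k := by omega
    exact_mod_cast this
  have h6 : ‖Sc k p b m‖ ^ (2 * k) ≤ (2 * (k : ℝ)) ^ (2 * k) * (p : ℝ) ^ (2 * k - 2) := by
    have a1 : (p : ℝ) ^ 2 / 2 ≤ ((p : ℝ) - 1) * p := by
      have : (2 : ℝ) ≤ p := by exact_mod_cast hp2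
      nlinarith
    have a2 : (p : ℝ) ^ 2 / 2 * ‖Sc k p b m‖ ^ (2 * k) ≤
        k * ((p : ℝ) ^ k * (k.factorial * (p : ℝ) ^ k)) :=
      (mul_le_mul_of_nonneg_right a1 (by positivity)).trans h5
    have a3 : (k : ℝ) * ((p : ℝ) ^ k * (k.factorial * (p : ℝ) ^ k)) =
        (p : ℝ) ^ 2 / 2 * (2 * k * k.factorial * (p : ℝ) ^ (2 * k - 2)) := by
      have e : (p : ℝ) ^ k * (p : ℝ) ^ k = (p : ℝ) ^ 2 * (p : ℝ) ^ (2 * k - 2) := by
        rw [← pow_add, ← pow_add]
        congr 1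
        omega
      calc (k : ℝ) * ((p : ℝ) ^ k * (k.factorial * (p : ℝ) ^ k))
          = k * k.factorial * ((p : ℝ) ^ k * (p : ℝ) ^ k) := by ring
        _ = k * k.factorial * ((p : ℝ) ^ 2 * (p : ℝ) ^ (2 * k - 2)) := by rw [e]
        _ = _ := by ring
    rw [a3] at a2
    have a4 := le_of_mul_le_mul_left a2 (by positivity)
    refine a4.trans ?_
    apply mul_le_mul_of_nonneg_right _ (by positivity)
    have b1 : (k.factorial : ℝ) ≤ (k : ℝ) ^ k := by exact_mod_cast Nat.factorial_le_pow k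
    have b2 : (k : ℝ) ^ k ≤ (2 * (k : ℝ)) ^ k := pow_le_pow_left₀ (by positivity) (by linarith) k
    calc 2 * (k : ℝ) * k.factorial ≤ 2 * (k : ℝ) * (2 * (k : ℝ)) ^ k :=
          mul_le_mul_of_nonneg_left (b1.trans b2) (by positivity)
      _ = (2 * (k : ℝ)) ^ (k + 1) := by rw [pow_succ]; ring
      _ ≤ (2 * (k : ℝ)) ^ (2 * k) := pow_le_pow_right₀ (by linarith) (by omega)
  have hkk : (2 * k : ℕ) ≠ 0 := by omega
  have h7 : (2 * (k : ℝ)) ^ (2 * k) * (p : ℝ) ^ (2 * k - 2) =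
      (2 * (k : ℝ) * (p : ℝ) ^ (1 - 1 / (k : ℝ))) ^ (2 * k) := by
    rw [mul_pow (2 * (k : ℝ)) ((p : ℝ) ^ (1 - 1 / (k : ℝ)))]
    congr 1
    rw [← Real.rpow_natCast ((p : ℝ) ^ (1 - 1 / (k : ℝ))), ← Real.rpow_mul hp0.le,
      ← Real.rpow_natCast]
    congr 1
    have : 2 ≤ 2 * k := by omega
    push_cast [Nat.cast_sub this]
    have hk0 : (k : ℝ) ≠ 0 := by linarith
    field_simp
  rw [h7] at h6
  exact le_of_pow_le_pow_left₀ hkk (by positivity) h6

end Pool.Agent.VM.H20
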